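import Pool.Agent.helper54.V3.SpecT

/-!
# Project v3: (MP_af9036_an), row NPK
-/

set_option autoImplicit false

open Complex Metric Set Filter Topology MeasureTheory

noncomputable section

namespace V3

theorem NPK : NPK_stmt := by
  intro ι p S c R hc hR hsep hball
  have hc2 : 0 < c / 2 := by linarith
  have hdisj : (S : Set ι).PairwiseDisjoint (fun i => ball (p i) (c / 2)) := by
    intro i hi l hl hil
    apply ball_disjoint_ball
    rw [dist_eq_norm]
    have := hsep i hi l hl hil
    linarith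
  have hsub : (⋃ i ∈ S, ball (p i) (c / 2)) ⊆ ball (0 : ℂ) (R + c / 2) := by
    intro x hx
    simp only [mem_iUnion] at hx
    obtain ⟨i, hi, hx⟩ := hx
    rw [mem_ball, dist_eq_norm] at hx
    rw [mem_ball_zero_iff]
    have h1 := hball i hi
    have h2 : ‖x‖ ≤ ‖x - p i‖ + ‖p i‖ := by
      have := norm_add_le (x - p i) (p i)
      simpa using this
    linarith
  have hm : volume (⋃ i ∈ S, ball (p i) (c / 2)) = ∑ i ∈ S, volume (ball (p i) (c / 2)) :=
    measure_biUnion_finset hdisj (fun i _ => measurableSet_ball)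
  have hle : ∑ i ∈ S, volume (ball (p i) (c / 2)) ≤ volume (ball (0 : ℂ) (R + c / 2)) := by
    rw [← hm]
    exact measure_mono hsub
  simp only [Complex.volume_ball, Finset.sum_const] at hle
  have hpi : (NNReal.pi : ENNReal) ≠ 0 := by
    have := NNReal.pi_pos
    exact_mod_cast this.ne'
  have hpi' : (NNReal.pi : ENNReal) ≠ ⊤ := ENNReal.coe_ne_top
  rw [nsmul_eq_mul, ← mul_assoc, ENNReal.mul_le_mul_iff_left hpi hpi'] at hle
  rw [← ENNReal.ofReal_pow hc2.le, ← ENNReal.ofReal_pow (by linarith : 0 ≤ R + c / 2),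
    ← ENNReal.ofReal_natCast, ← ENNReal.ofReal_mul (Nat.cast_nonneg _),
    ENNReal.ofReal_le_ofReal_iff (by positivity)] at hle
  have h3 : (S.card : ℝ) ≤ (R + c / 2) ^ 2 / (c / 2) ^ 2 := by
    rw [le_div_iff₀ (by positivity)]
    exact hle
  have h4 : (R + c / 2) ^ 2 / (c / 2) ^ 2 = (1 + 2 * R / c) ^ 2 := by
    field_simp
    ring
  rwa [h4] at h3

end V3
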