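import Pool.Agent.helper54.V3.SpecG

/-!
# Project v3: (MP_af9036_an), row GGL
-/

set_option autoImplicit false

open Complex Metric Set Filter Topology MeasureTheory MPS V3

noncomputable section

namespace V3S

/-- The circle integral of a pole. -/
theorem GGL_pole (c w a : ℂ) (r : ℝ) (hr : 0 < r) (hw : w ∉ sphere c r) :
    (∮ x in C(c, r), (1 / (x - w) ^ 2 + a / (x - w))) =
      a * (∮ x in C(c, r), (x - w)⁻¹) := by
  have hne : ∀ x ∈ sphere c r, x - w ≠ 0 := by
    intro x hx h
    rw [sub_eq_zero] at h
    rw [h] at hx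
    exact hw hx
  have h1 : CircleIntegrable (fun x => (x - w) ^ (-2 : ℤ)) c r := by
    apply ContinuousOn.circleIntegrable hr.le
    apply ContinuousOn.zpow₀ (by fun_prop)
    intro x hx
    exact Or.inl (hne x hx)
  have h2 : CircleIntegrable (fun x => a * (x - w)⁻¹) c r := by
    apply ContinuousOn.circleIntegrable hr.le
    exact continuousOn_const.mul (ContinuousOn.inv₀ (by fun_prop) hne)
  have h3 : (fun x => (1 / (x - w) ^ 2 + a / (x - w))) =
      fun x => (x - w) ^ (-2 : ℤ) + a * (x - w)⁻¹ := by
    funext x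
    rw [zpow_neg, div_eq_mul_inv a, one_div]
    norm_cast
  rw [h3, circleIntegral.integral_add h1 h2,
    circleIntegral.integral_sub_zpow_of_ne (by norm_num), zero_add,
    circleIntegral.integral_const_mul]

theorem GGL_out (c w : ℂ) (r : ℝ) (hr : 0 < r) (hw : w ∉ closedBall c r) :
    (∮ x in C(c, r), (x - w)⁻¹) = 0 := by
  have hne : ∀ x ∈ closedBall c r, x - w ≠ 0 := by
    intro x hx h
    rw [sub_eq_zero] at h
    rw [h] at hx
    exact hw hx
  apply Complex.circleIntegral_eq_zero_of_differentiable_on_off_countable hr.le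
    (countable_empty)
  · exact ContinuousOn.inv₀ (by fun_prop) hne
  · intro x hx
    have hx' : x ∈ closedBall c r := ball_subset_closedBall hx.1
    exact ((differentiableAt_id.sub_const w).inv (hne x hx'))

theorem GGL (hGBA : GBA_stmt) (hGLB : GLB_stmt) : GGL_stmt := by
  intro n ra Cf D hS hL
  obtain ⟨g, hbd, hpp, hb2⟩ := hL.gg
  refine ⟨g, ⟨hbd, hpp, ?_, hb2⟩⟩
  intro p hp l hl
  obtain ⟨c₀, hc₀, hsep⟩ := hL.sep
  obtain ⟨_, _, _, _, _, ⟨c₁, hc₁, hsep'⟩, _⟩ := hGLB n ra Cf D hS hL
  obtain ⟨h, hh, hform⟩ := hpp p hp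
  -- a radius
  obtain ⟨r₁, hr₁, hball⟩ : ∃ r₁ > 0, ∀ x ∈ ball p r₁, DifferentiableAt ℂ h x := by
    have h1 : ∀ᶠ x in 𝓝 p, DifferentiableAt ℂ h x :=
      hh.eventually_analyticAt.mono fun x hx => hx.differentiableAt
    exact Metric.eventually_nhds_iff_ball.mp h1
  obtain ⟨r₂, hr₂, hball₂⟩ : ∃ r₂ > 0, ∀ x ∈ ball p r₂, x ≠ p →
      Bin D x = 1 / (x - p) ^ 2 + g p / (x - p) + h x := by
    rw [eventually_nhdsWithin_iff] at hform
    obtain ⟨r₂, hr₂, h2⟩ := Metric.eventually_nhds_iff_ball.mp hform
    exact ⟨r₂, hr₂, fun x hx hne => h2 x hx hne⟩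
  set r : ℝ := min (min (r₁ / 2) (r₂ / 2)) (min (c₀ / 4) (c₁ / 2)) with hrdef
  have hr : 0 < r := by
    rw [hrdef]
    exact lt_min (lt_min (by linarith) (by linarith)) (lt_min (by linarith) (by linarith))
  have hr1 : r < r₁ := by
    have : r ≤ r₁ / 2 := le_trans (min_le_left _ _) (min_le_left _ _)
    linarith
  have hr2 : r < r₂ := by
    have : r ≤ r₂ / 2 := le_trans (min_le_left _ _) (min_le_right _ _)
    linarith
  have hr3 : r ≤ c₀ / 4 := le_trans (min_le_right _ _) (min_le_left _ _)
  have hr4 : r < c₁ := by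
    have : r ≤ c₁ / 2 := le_trans (min_le_right _ _) (min_le_right _ _)
    linarith
  have hpsph : ∀ x ∈ sphere p r, x ≠ p := by
    intro x hx h
    rw [h, mem_sphere, dist_self] at hx
    linarith
  -- the sphere avoids the limit poles
  have hsub : sphere p r ⊆ (Pin D)ᶜ := by
    intro x hx hxP
    have h1 := hsep' x hxP p hp (hpsph x hx)
    rw [mem_sphere, dist_eq_norm] at hx
    linarith
  -- the integral of the limit
  have hBc : ContinuousOn (Bin D) (sphere p r) := hL.Bdiff.continuousOn.mono hsub
  have hBi : CircleIntegrable (Bin D) p r := hBc.circleIntegrable hr.le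
  have hpnot : p ∉ sphere p r := fun h => hpsph p h rfl
  have hI : (∮ x in C(p, r), Bin D x) = g p * (2 * Real.pi * I) := by
    have h1 : (∮ x in C(p, r), Bin D x) =
        ∮ x in C(p, r), ((1 / (x - p) ^ 2 + g p / (x - p)) + h x) := by
      apply circleIntegral.integral_congr hr.le
      intro x hx
      apply hball₂ x _ (hpsph x hx)
      rw [mem_ball]
      rw [mem_sphere] at hx
      linarith
    have hhc : ContinuousOn h (closedBall p r) := by
      intro x hx
      apply ContinuousAt.continuousWithinAt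
      apply (hball x _).continuousAt
      rw [mem_closedBall] at hx
      rw [mem_ball]
      linarith
    have h2 : CircleIntegrable h p r := (hhc.mono sphere_subset_closedBall).circleIntegrable hr.le
    have h3 : CircleIntegrable (fun x => 1 / (x - p) ^ 2 + g p / (x - p)) p r := by
      apply ContinuousOn.circleIntegrable hr.le
      apply ContinuousOn.add
      · apply ContinuousOn.div continuousOn_const (by fun_prop)
        intro x hx
        exact pow_ne_zero 2 (sub_ne_zero.mpr (hpsph x hx))
      · apply ContinuousOn.div continuousOn_const (by fun_prop)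
        intro x hx
        exact sub_ne_zero.mpr (hpsph x hx)
    rw [h1, circleIntegral.integral_add h3 h2, GGL_pole p p (g p) r hr hpnot,
      circleIntegral.integral_sub_inv_of_mem_ball (mem_ball_self hr)]
    have h4 : (∮ x in C(p, r), h x) = 0 := by
      apply Complex.circleIntegral_eq_zero_of_differentiable_on_off_countable hr.le
        (countable_empty) hhc
      intro x hx
      apply hball x
      have := hx.1
      rw [mem_ball] at this ⊢
      linarith
    rw [h4, add_zero]
  -- convergence
  rw [Metric.tendsto_nhds]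
  intro ε hε
  have hK := hL.Bconv (sphere p r) (isCompact_sphere p r) hsub
  rw [Metric.tendstoUniformlyOn_iff] at hK
  have hK1 := hK (ε / (2 * r)) (by positivity)
  have hl' : Tendsto (fun m => (D m).p (l m)) UF (𝓝 p) := hl
  rw [Metric.tendsto_nhds] at hl'
  have hl1 := hl' (r / 2) (by positivity)
  refine (hK1.and hl1).mono ?_
  rintro m ⟨hm1, hm2⟩
  obtain ⟨hsg, _, _, _, _, _, _, _, _, _, hBf, _, _, _, _, _⟩ := hGBA n ra Cf (D m) (hS.good m)
  -- the poles
  have hin : (D m).p (l m) ∈ ball p r := by
    rw [mem_ball]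
    linarith
  have hout : ∀ i, i ≠ l m → (D m).p i ∉ closedBall p r := by
    intro i hi hmem
    have h1 := hsep m i (l m) hi
    rw [mem_closedBall] at hmem
    have h2 : ‖(D m).p i - (D m).p (l m)‖ ≤ dist ((D m).p i) p + dist ((D m).p (l m)) p := by
      rw [← dist_eq_norm]
      exact dist_triangle_right _ _ _
    linarith
  have hnot : ∀ i, (D m).p i ∉ sphere p r := by
    intro i hi
    by_cases hil : i = l m
    · rw [hil] at hi
      rw [mem_sphere] at hi
      rw [mem_ball] at hin
      linarith
    · exact hout i hil (sphere_subset_closedBall hi)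
  have hne : ∀ i, ∀ x ∈ sphere p r, x - (D m).p i ≠ 0 := by
    intro i x hx h
    rw [sub_eq_zero] at h
    rw [h] at hx
    exact hnot i hx
  have hci : ∀ i, CircleIntegrable
      (fun x => 1 / (x - (D m).p i) ^ 2 + (D m).sg * (D m).g i / (x - (D m).p i)) p r := by
    intro i
    apply ContinuousOn.circleIntegrable hr.le
    apply ContinuousOn.add
    · apply ContinuousOn.div continuousOn_const (by fun_prop)
      intro x hx
      exact pow_ne_zero 2 (hne i x hx)
    · apply ContinuousOn.div continuousOn_const (by fun_prop)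
      intro x hx
      exact hne i x hx
  have hBeq : (D m).B = fun x => ∑ i, (1 / (x - (D m).p i) ^ 2 +
      (D m).sg * (D m).g i / (x - (D m).p i)) := funext hBf
  have hBmi : CircleIntegrable (D m).B p r := by
    rw [hBeq]
    have h5 := CircleIntegrable.sum (Finset.univ) (f := fun i x => 1 / (x - (D m).p i) ^ 2 +
      (D m).sg * (D m).g i / (x - (D m).p i)) (fun i _ => hci i)
    have h6 : (∑ i, (fun x => 1 / (x - (D m).p i) ^ 2 +
      (D m).sg * (D m).g i / (x - (D m).p i))) = fun x => ∑ i, (1 / (x - (D m).p i) ^ 2 +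
      (D m).sg * (D m).g i / (x - (D m).p i)) := by
      funext x
      simp
    rwa [h6] at h5
  have hJ : (∮ x in C(p, r), (D m).B x) = (D m).sg * (D m).g (l m) * (2 * Real.pi * I) := by
    rw [hBeq]
    rw [circleIntegral.integral_fun_sum (fun i _ => hci i)]
    rw [Finset.sum_eq_single (l m)]
    · rw [GGL_pole p _ _ r hr (hnot (l m)), circleIntegral.integral_sub_inv_of_mem_ball hin]
    · intro i _ hi
      rw [GGL_pole p _ _ r hr (hnot i), GGL_out p _ r hr (hout i hi), mul_zero]
    · intro h
      exact absurd (Finset.mem_univ _) h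
  have hdiff : (∮ x in C(p, r), ((D m).B x - Bin D x)) =
      ((D m).sg * (D m).g (l m) - g p) * (2 * Real.pi * I) := by
    rw [circleIntegral.integral_sub hBmi hBi, hJ, hI]
    ring
  have hest : ‖∮ x in C(p, r), ((D m).B x - Bin D x)‖ ≤ 2 * Real.pi * r * (ε / (2 * r)) := by
    apply circleIntegral.norm_integral_le_of_norm_le_const hr.le
    intro x hx
    have := hm1 x hx
    rw [dist_eq_norm, norm_sub_rev] at this
    exact this.le
  rw [hdiff, norm_mul] at hest
  have h2pi : ‖(2 * Real.pi * I : ℂ)‖ = 2 * Real.pi := by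
    simp [abs_of_pos Real.pi_pos]
  rw [h2pi] at hest
  have h7 : 2 * Real.pi * r * (ε / (2 * r)) = (ε / 2) * (2 * Real.pi) := by
    field_simp
  rw [h7] at hest
  have h8 : ‖(D m).sg * (D m).g (l m) - g p‖ ≤ ε / 2 :=
    le_of_mul_le_mul_right hest (by positivity)
  rw [dist_eq_norm]
  linarith

end V3S
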