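import Pool.Agent.helper10.V3.SpecL
import Pool.Agent.helper36.V3.SpecP

/-!
# Project v3: (MP_af9036_an), row MNI
-/

set_option autoImplicit false

open Complex Metric Set Filter Topology MeasureTheory MPS

noncomputable section

namespace V3S

theorem MNI_ev {n : ℕ} {ra : ℝ} {Cf : ℝ → ℝ} {D : ℕ → Dat} (hS : Seq n ra Cf D) {ε₀ : ℝ}
    (h0 : 0 < ε₀) : ∀ᶠ m in UF, ‖(D m).lam‖ ≤ ε₀ := by
  have h1 : Tendsto (fun m => ‖(D m).lam‖) atTop (𝓝 0) := by
    have := hS.lim.norm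
    simpa using this
  have h2 : ∀ᶠ m in atTop, ‖(D m).lam‖ < ε₀ := h1.eventually (gt_mem_nhds h0)
  exact (h2.filter_mono UF_le).mono fun m hm => hm.le

theorem MNI (hKRD : KRD_stmt) (hSEP : SEP_stmt) (hBA1 : BA1_stmt) : MNI_stmt := by
  intro n ra Cf D hS
  constructor
  · intro ε hε
    obtain ⟨ε₀, hε₀, hK⟩ := hKRD n ra Cf ε hε
    refine (MNI_ev hS hε₀).mono fun m hm j hj => ?_
    have hG := hS.good m
    obtain ⟨hA, hψ, hlog⟩ := hK (D m) hG hm j hj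
    have hsg : 0 < ‖(D m).sg‖ := norm_pos_iff.mpr (hBA1 n ra Cf (D m) hG).1
    have hApos : 0 < ‖(D m).A j‖ := norm_pos_iff.mpr hA
    have h1 : 1 ≤ ‖deriv ((D m).ψ (j : ZMod (D m).k)) 0‖ / ‖(D m).sg‖ := by
      rw [le_div_iff₀ hsg, one_mul]
      exact hG.mini _
    have h2 : 0 ≤ Real.log (‖deriv ((D m).ψ (j : ZMod (D m).k)) 0‖ / ‖(D m).sg‖) :=
      Real.log_nonneg h1
    rw [abs_le] at hlog
    have h3 : -ε ≤ Real.log ‖(D m).A j‖ := by linarith [hlog.2]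
    have h4 : Real.exp (-ε) ≤ ‖(D m).A j‖ := by
      rw [← Real.exp_log hApos]
      exact Real.exp_le_exp.mpr h3
    have h5 := Real.add_one_le_exp (-ε)
    linarith
  · obtain ⟨c₀, hc₀, hsep⟩ := hSEP
    obtain ⟨ε₀, hε₀, hK⟩ := hKRD n ra Cf (Real.log 2) (Real.log_pos (by norm_num))
    refine ⟨2 / c₀, (MNI_ev hS hε₀).mono fun m hm j hj1 hj2 => ?_⟩
    have hG := hS.good m
    obtain ⟨hA, hψ, hlog⟩ := hK (D m) hG hm j hj2.le
    have hB := hBA1 n ra Cf (D m) hG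
    have hsg : 0 < ‖(D m).sg‖ := norm_pos_iff.mpr hB.1
    have hApos : 0 < ‖(D m).A j‖ := norm_pos_iff.mpr hA
    have hψpos : 0 < ‖deriv ((D m).ψ (j : ZMod (D m).k)) 0‖ := norm_pos_iff.mpr hψ
    have hF : (D m).F j 0 = (D m).p (j : ZMod (D m).k) := by
      obtain ⟨_, _, _, _, _, _, _, _, _, _, _, _, h13, _⟩ := hB
      exact h13 j
    have hj0 : (j : ZMod (D m).k) ≠ 0 := by
      intro h
      rw [ZMod.natCast_eq_zero_iff] at h
      have := Nat.le_of_dvd (by omega) h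
      omega
    have h1 := (hsep n ra Cf (D m) hG).2 _ hj0
    set r : ℝ := ‖deriv ((D m).ψ (j : ZMod (D m).k)) 0‖ / ‖(D m).sg‖ with hr
    have hrpos : 0 < r := div_pos hψpos hsg
    rw [abs_le] at hlog
    have h3 : Real.log ‖(D m).A j‖ ≤ Real.log (2 * r) := by
      rw [Real.log_mul (by norm_num) hrpos.ne']
      linarith [hlog.1]
    have h4 : ‖(D m).A j‖ ≤ 2 * r := (Real.log_le_log_iff hApos (by positivity)).mp h3
    rw [hF]
    have h5 : r ≤ ‖(D m).p (j : ZMod (D m).k)‖ / c₀ := by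
      rw [le_div_iff₀ hc₀]
      linarith
    calc ‖(D m).A j‖ ≤ 2 * r := h4
      _ ≤ 2 * (‖(D m).p (j : ZMod (D m).k)‖ / c₀) := by linarith
      _ = 2 / c₀ * ‖(D m).p (j : ZMod (D m).k)‖ := by ring

end V3S
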